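import Mathlib

/-! # leaf: the numerical inequality for large `n`

Take `q = (p - 1)! * j + 1` maximal with `p q ≤ n`, so `q ≥ n / p - (p - 1)! - 1`. With
`C = p.choose r`: `(C - 1) r! 2^(r-1) / p^r > 1`, since
`C r! 2^(r-1) / p^r = ∏_{i=1}^{r-1} 2 (1 - i/p) ≥ 8/5` and `C ≥ 10` for `r ≥ 3`, `p ≥ 2r - 1`. -/

set_option autoImplicit false

namespace ESD
open Finset

private theorem as_desc (p m : ℕ) (hp : 5 ≤ p) (hm : 2 ≤ m) (hmp : 2 * m ≤ p + 2) :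
    8 * p ^ m ≤ 5 * (p.descFactorial m * 2 ^ (m - 1)) := by
  induction m, hm using Nat.le_induction with
  | base =>
    have e : p.descFactorial 2 = (p - 1) * (p * 1) := by
      rw [Nat.descFactorial_succ, Nat.descFactorial_succ, Nat.descFactorial_zero]
      simp
    rw [e]
    obtain ⟨t, rfl⟩ : ∃ t, p = t + 5 := ⟨p - 5, by omega⟩
    have e2 : t + 5 - 1 = t + 4 := by omega
    rw [e2]
    norm_num
    nlinarith
  | succ m hm ih =>
    have h1 := ih (by omega)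
    obtain ⟨k, rfl⟩ : ∃ k, m = k + 1 := ⟨m - 1, by omega⟩
    rw [Nat.add_sub_cancel] at h1 ⊢
    rw [Nat.descFactorial_succ p (k + 1), pow_succ, pow_succ 2 k]
    have h2 : p ≤ 2 * (p - (k + 1)) := by omega
    calc 8 * (p ^ (k + 1) * p) = (8 * p ^ (k + 1)) * p := by ring
      _ ≤ (5 * (p.descFactorial (k + 1) * 2 ^ k)) * (2 * (p - (k + 1))) := Nat.mul_le_mul h1 h2
      _ = 5 * ((p - (k + 1)) * p.descFactorial (k + 1) * (2 ^ k * 2)) := by ring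

private theorem as_ten (r : ℕ) (hr : 3 ≤ r) : 10 ≤ (2 * r - 1).choose r := by
  induction r, hr using Nat.le_induction with
  | base => decide
  | succ r hr ih =>
    obtain ⟨k, rfl⟩ : ∃ k, r = k + 1 := ⟨r - 1, by omega⟩
    have e1 : 2 * (k + 1 + 1) - 1 = (2 * k + 1) + 1 + 1 := by omega
    have e2 : 2 * (k + 1) - 1 = 2 * k + 1 := by omega
    rw [e2] at ih
    rw [e1, Nat.choose_succ_succ' (2 * k + 1 + 1) (k + 1), Nat.choose_succ_succ' (2 * k + 1) k]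
    omega

private theorem as_key (r p : ℕ) (hr : 3 ≤ r) (hp : 2 * r - 1 ≤ p) :
    p ^ r < (p.choose r - 1) * (r.factorial * 2 ^ (r - 1)) := by
  have h1 := as_desc p r (by omega) (by omega) (by omega)
  rw [Nat.descFactorial_eq_factorial_mul_choose] at h1
  have h2 : 10 ≤ p.choose r := (as_ten r hr).trans (Nat.choose_le_choose r hp)
  obtain ⟨c, hc⟩ : ∃ c, p.choose r = c + 10 := ⟨p.choose r - 10, by omega⟩
  rw [hc] at h1 ⊢
  have e : c + 10 - 1 = c + 9 := by omega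
  rw [e]
  have hpos : 0 < p ^ r := pow_pos (by omega) r
  obtain ⟨G, hG⟩ : ∃ G, G = r.factorial * 2 ^ (r - 1) := ⟨_, rfl⟩
  have e3 : r.factorial * (c + 10) * 2 ^ (r - 1) = (c + 10) * G := by rw [hG]; ring
  rw [e3] at h1
  rw [← hG]
  obtain ⟨w, hw⟩ : ∃ w, w = c * G := ⟨_, rfl⟩
  have e4 : (c + 10) * G = w + 10 * G := by rw [hw]; ring
  have e5 : (c + 9) * G = w + 9 * G := by rw [hw]; ring
  rw [e4] at h1
  rw [e5]
  omega

private theorem as_q (p n : ℕ) (hp : 0 < p) (hn : p ≤ n) : ∃ q : ℕ, 0 < q ∧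
    (∀ j, 0 < j → j < p → Nat.Coprime j q) ∧ p * q ≤ n ∧ n ≤ p * (q + (p - 1).factorial) := by
  obtain ⟨D, hD⟩ : ∃ D, D = (p - 1).factorial := ⟨_, rfl⟩
  have hD0 : 0 < D := by rw [hD]; exact Nat.factorial_pos _
  obtain ⟨m, hm⟩ : ∃ m, n / p = m + 1 := ⟨n / p - 1, by
    have : 0 < n / p := Nat.div_pos hn hp
    omega⟩
  have h1 := Nat.div_add_mod m D
  have h2 := Nat.mod_lt m hD0
  have h3 := Nat.div_add_mod n p
  have h4 := Nat.mod_lt n hp
  refine ⟨D * (m / D) + 1, by omega, fun j hj hjp => ?_, ?_, ?_⟩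
  · have hjD : j ∣ D := by
      rw [hD]
      exact Nat.dvd_factorial hj (by omega)
    obtain ⟨e, he⟩ := hjD
    rw [he, mul_assoc]
    simp
  · calc p * (D * (m / D) + 1) ≤ p * (m + 1) := Nat.mul_le_mul_left _ (by omega)
      _ = p * (n / p) := by rw [hm]
      _ ≤ n := by omega
  · rw [← hD]
    have h5 : m + 2 ≤ D * (m / D) + 1 + D := by omega
    have h6 := Nat.mul_le_mul_left p h5
    have h7 : p * (m + 2) = p * (n / p) + p := by rw [hm]; ring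
    omega

theorem asym (r p : ℕ) (hr : 3 ≤ r) (hp : 2 * r - 1 ≤ p) :
    ∃ δ : ℝ, 0 < δ ∧ ∃ n₀ : ℕ, ∀ n : ℕ, n₀ ≤ n → ∃ q s : ℕ, 0 < q ∧
      (∀ j, 0 < j → j < p → Nat.Coprime j q) ∧ p * q ≤ n ∧
      δ * (n.choose r : ℝ) < (s : ℝ) + 1 ∧
      s * (p.choose r - 2) + 2 * ((n + 2 - 1) / 2).choose r ≤ q ^ r * (p.choose r - 1) := by
  have hp0 : 0 < p := by omega
  obtain ⟨C1, hC1⟩ : ∃ C1 : ℕ, C1 = p.choose r - 1 := ⟨_, rfl⟩
  obtain ⟨C2, hC2⟩ : ∃ C2 : ℕ, C2 = p.choose r - 2 := ⟨_, rfl⟩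
  have hk := as_key r p hr hp
  rw [← hC1] at hk
  rw [← hC2, ← hC1]
  obtain ⟨G, hG⟩ : ∃ G : ℝ, G = (r.factorial : ℝ) * 2 ^ (r - 1) := ⟨_, rfl⟩
  have hf : (0 : ℝ) < r.factorial := by exact_mod_cast Nat.factorial_pos r
  have h2r : (0 : ℝ) < 2 ^ (r - 1) := by positivity
  have hG0 : 0 < G := by rw [hG]; positivity
  have hpr : (0 : ℝ) < (p : ℝ) ^ r := by
    have : (0 : ℝ) < p := by exact_mod_cast hp0
    positivity
  obtain ⟨A, hA⟩ : ∃ A : ℝ, A = (C1 : ℝ) * G / (p : ℝ) ^ r := ⟨_, rfl⟩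
  have hA1 : 1 < A := by
    rw [hA, one_lt_div hpr, hG]
    exact_mod_cast hk
  obtain ⟨c, hc⟩ : ∃ c : ℝ, c = (p : ℝ) * ((p - 1).factorial : ℝ) := ⟨_, rfl⟩
  have hden : (0 : ℝ) < 2 * ((C2 : ℝ) * 2 ^ (r - 1) + 1) := by positivity
  refine ⟨(A - 1) / (2 * ((C2 : ℝ) * 2 ^ (r - 1) + 1)), div_pos (by linarith) hden, ?_⟩
  obtain ⟨δ, hδ⟩ : ∃ δ : ℝ, δ = (A - 1) / (2 * ((C2 : ℝ) * 2 ^ (r - 1) + 1)) := ⟨_, rfl⟩
  rw [← hδ]
  have hδ0 : 0 < δ := by rw [hδ]; exact div_pos (by linarith) hden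
  have hδ1 : δ * (C2 * 2 ^ (r - 1)) ≤ (A - 1) / 2 := by
    have h1 : δ * (2 * ((C2 : ℝ) * 2 ^ (r - 1) + 1)) = A - 1 := by
      rw [hδ]
      exact div_mul_cancel₀ _ hden.ne'
    nlinarith
  -- the limit
  have hT : Filter.Tendsto (fun n : ℕ => A * (1 - c / (n : ℝ)) ^ r - (1 + 1 / (n : ℝ)) ^ r)
      Filter.atTop (nhds (A * (1 - 0) ^ r - (1 + 0) ^ r)) := by
    refine Filter.Tendsto.sub ?_ ?_
    · refine Filter.Tendsto.const_mul _ (Filter.Tendsto.pow ?_ r)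
      exact tendsto_const_nhds.sub (tendsto_const_div_atTop_nhds_zero_nat c)
    · refine Filter.Tendsto.pow ?_ r
      exact tendsto_const_nhds.add (tendsto_const_div_atTop_nhds_zero_nat 1)
  have hlim : (A - 1) / 2 < A * (1 - 0) ^ r - (1 + 0) ^ r := by
    simp only [sub_zero, add_zero, one_pow, mul_one]
    linarith
  obtain ⟨n₁, hn₁⟩ := Filter.eventually_atTop.1 (hT.eventually (lt_mem_nhds hlim))
  refine ⟨max n₁ (max (p * (p - 1).factorial) p), fun n hn => ?_⟩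
  have hn1 := hn₁ n (le_trans (le_max_left _ _) hn)
  have hn2 : p * (p - 1).factorial ≤ n :=
    le_trans (le_trans (le_max_left _ _) (le_max_right _ _)) hn
  have hn3 : p ≤ n := le_trans (le_trans (le_max_right _ _) (le_max_right _ _)) hn
  obtain ⟨q, q1, q2, q3, q4⟩ := as_q p n hp0 hn3
  refine ⟨q, ⌊δ * (n.choose r : ℝ)⌋₊, q1, q2, q3, Nat.lt_floor_add_one _, ?_⟩
  have hX : (0 : ℝ) < n := by
    have : 0 < n := by omega
    exact_mod_cast this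
  have hXr : (0 : ℝ) < (n : ℝ) ^ r := by positivity
  have hcX : c ≤ n := by rw [hc]; exact_mod_cast hn2
  -- the inequality without denominators
  have hmain : (A - 1) / 2 * (n : ℝ) ^ r + (n + 1) ^ r ≤ A * (n - c) ^ r := by
    have e1 : ((n : ℝ) - c) ^ r = (1 - c / n) ^ r * (n : ℝ) ^ r := by
      rw [← mul_pow]
      congr 1
      field_simp
    have e2 : ((n : ℝ) + 1) ^ r = (1 + 1 / n) ^ r * (n : ℝ) ^ r := by
      rw [← mul_pow]
      congr 1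
      field_simp
    rw [e1, e2]
    have := mul_lt_mul_of_pos_right hn1 hXr
    nlinarith
  -- upper bounds
  have u1 : ((⌊δ * (n.choose r : ℝ)⌋₊ : ℕ) : ℝ) ≤ δ * ((n : ℝ) ^ r / r.factorial) :=
    (Nat.floor_le (by positivity)).trans
      (mul_le_mul_of_nonneg_left (Nat.choose_le_pow_div r n) hδ0.le)
  have u2 : ((((n + 2 - 1) / 2).choose r : ℕ) : ℝ) ≤ (((n : ℝ) + 1) / 2) ^ r / r.factorial := by
    refine (Nat.choose_le_pow_div r _).trans ?_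
    refine div_le_div_of_nonneg_right ?_ hf.le
    refine pow_le_pow_left₀ (by positivity) ?_ r
    have h1 : (n + 2 - 1) / 2 * 2 ≤ n + 1 := by omega
    have h2 : (((n + 2 - 1) / 2 : ℕ) : ℝ) * 2 ≤ n + 1 := by exact_mod_cast h1
    linarith
  -- lower bound
  have l1 : (((n : ℝ) - c) / p) ^ r ≤ (q : ℝ) ^ r := by
    refine pow_le_pow_left₀ (div_nonneg (by linarith) (by positivity)) ?_ r
    have hp' : (0 : ℝ) < p := by exact_mod_cast hp0
    rw [div_le_iff₀ hp']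
    have : (n : ℝ) ≤ p * (q + ((p - 1).factorial : ℝ)) := by exact_mod_cast q4
    rw [hc]
    linarith
  have goal : ((⌊δ * (n.choose r : ℝ)⌋₊ : ℕ) : ℝ) * C2 +
      2 * ((((n + 2 - 1) / 2).choose r : ℕ) : ℝ) ≤ (q : ℝ) ^ r * C1 := by
    have s1 : ((⌊δ * (n.choose r : ℝ)⌋₊ : ℕ) : ℝ) * C2 ≤ δ * ((n : ℝ) ^ r / r.factorial) * C2 :=
      mul_le_mul_of_nonneg_right u1 (by positivity)
    have s2 : (((n : ℝ) - c) / p) ^ r * C1 ≤ (q : ℝ) ^ r * C1 :=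
      mul_le_mul_of_nonneg_right l1 (by positivity)
    have e1 : (((n : ℝ) - c) / p) ^ r * C1 = A * (n - c) ^ r / G := by
      rw [hA, div_pow]
      field_simp
    have e2 : 2 * ((((n : ℝ) + 1) / 2) ^ r / r.factorial) = (n + 1) ^ r / G := by
      obtain ⟨k, rfl⟩ : ∃ k, r = k + 1 := ⟨r - 1, by omega⟩
      rw [hG, div_pow, Nat.add_sub_cancel, pow_succ 2 k]
      field_simp
    have e3 : δ * ((n : ℝ) ^ r / r.factorial) * C2 = δ * (C2 * 2 ^ (r - 1)) * (n : ℝ) ^ r / G := by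
      rw [hG]
      field_simp
    have s3 : δ * (C2 * 2 ^ (r - 1)) * (n : ℝ) ^ r ≤ (A - 1) / 2 * (n : ℝ) ^ r :=
      mul_le_mul_of_nonneg_right hδ1 hXr.le
    have s4 : δ * (C2 * 2 ^ (r - 1)) * (n : ℝ) ^ r / G + (n + 1) ^ r / G ≤
        A * (n - c) ^ r / G := by
      rw [← add_div]
      exact div_le_div_of_nonneg_right (by linarith) hG0.le
    calc ((⌊δ * (n.choose r : ℝ)⌋₊ : ℕ) : ℝ) * C2 +
        2 * ((((n + 2 - 1) / 2).choose r : ℕ) : ℝ)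
        ≤ δ * ((n : ℝ) ^ r / r.factorial) * C2 +
          2 * ((((n : ℝ) + 1) / 2) ^ r / r.factorial) := by linarith
      _ = δ * (C2 * 2 ^ (r - 1)) * (n : ℝ) ^ r / G + (n + 1) ^ r / G := by rw [e3, e2]
      _ ≤ A * (n - c) ^ r / G := s4
      _ = (((n : ℝ) - c) / p) ^ r * C1 := e1.symm
      _ ≤ (q : ℝ) ^ r * C1 := s2
  exact_mod_cast goal

end ESD
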