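import Mathlib

set_option autoImplicit false

namespace ESD
open Finset

theorem choose_ge_ten (r : ℕ) (hr : 3 ≤ r) : 10 ≤ (2 * r - 1).choose r := by
  induction r, hr using Nat.le_induction with
  | base => decide
  | succ r hr ih =>
    have h1 : 2 * (r + 1) - 1 = 2 * r + 1 := by omega
    rw [h1, Nat.choose_succ_succ]
    have h2 : (2 * r - 1).choose r ≤ (2 * r).choose r := Nat.choose_le_choose r (by omega)
    omega

theorem desc_ge (p r : ℕ) (hr : 3 ≤ r) (hp : 2 * r - 1 ≤ p) :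
    48 * p ^ r ≤ 25 * (2 ^ (r - 1) * p.descFactorial r) := by
  induction r, hr using Nat.le_induction with
  | base =>
    obtain ⟨k, rfl⟩ : ∃ k, p = k + 5 := ⟨p - 5, by omega⟩
    simp only [Nat.descFactorial_succ, Nat.descFactorial_zero, Nat.sub_zero]
    have h1 : k + 5 - 1 = k + 4 := by omega
    have h2 : k + 5 - 2 = k + 3 := by omega
    rw [h1, h2]
    norm_num
    nlinarith [Nat.zero_le k, Nat.zero_le (k * k), Nat.zero_le (k * k * k)]
  | succ r hr ih =>
    have ih' := ih (by omega)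
    rw [Nat.descFactorial_succ, pow_succ]
    have h1 : r + 1 - 1 = (r - 1) + 1 := by omega
    rw [h1, pow_succ]
    have h2 : p ≤ 2 * (p - r) := by omega
    calc 48 * (p ^ r * p) = (48 * p ^ r) * p := by ring
      _ ≤ (25 * (2 ^ (r - 1) * p.descFactorial r)) * (2 * (p - r)) := Nat.mul_le_mul ih' h2
      _ = 25 * (2 ^ (r - 1) * 2 * ((p - r) * p.descFactorial r)) := by ring

/-- the key constant: `(C - 1) r! 2^(r-1) > p^r` -/
theorem key (r p : ℕ) (hr : 3 ≤ r) (hp : 2 * r - 1 ≤ p) :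
    p ^ r < (p.choose r - 1) * r.factorial * 2 ^ (r - 1) := by
  have h1 := desc_ge p r hr hp
  have h2 : 10 ≤ p.choose r :=
    le_trans (choose_ge_ten r hr) (Nat.choose_le_choose r hp)
  rw [Nat.descFactorial_eq_factorial_mul_choose] at h1
  obtain ⟨c, hc⟩ : ∃ c, p.choose r = c + 1 := ⟨p.choose r - 1, by omega⟩
  rw [hc] at h1 h2 ⊢
  have h3 : 9 ≤ c := by omega
  have hp0 : 0 < p ^ r := by apply Nat.pow_pos; omega
  simp only [Nat.add_sub_cancel]
  have h4 : 9 * (r.factorial * 2 ^ (r - 1)) ≤ c * r.factorial * 2 ^ (r - 1) := by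
    calc 9 * (r.factorial * 2 ^ (r - 1)) ≤ c * (r.factorial * 2 ^ (r - 1)) :=
          Nat.mul_le_mul_right _ h3
      _ = c * r.factorial * 2 ^ (r - 1) := by ring
  have h5 : 25 * (2 ^ (r - 1) * (r.factorial * (c + 1)))
      = 25 * (c * r.factorial * 2 ^ (r - 1)) + 25 * (r.factorial * 2 ^ (r - 1)) := by ring
  omega

end ESD
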