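import Mathlib

/-! # leaf: a partition with many edge-disjoint copies (induction on `F`, see
`ESW.exists_part` in `Lib/MP_1f562fW/Part.lean` for one copy) -/

set_option autoImplicit false

namespace ESD
open Finset

theorem part_many {n r p : ℕ} (hr : 1 ≤ r) (hrp : r ≤ p) (F : Finset (Finset (Fin n)))
    (hF : ∀ S ∈ F, S.card = p) (hd : ∀ S ∈ F, ∀ T ∈ F, S ≠ T → (S ∩ T).card < r)
    (H : Finset (Finset (Fin n))) (hFH : ∀ S ∈ F, S.powersetCard r ⊆ H) :
    ∃ P : Finpartition H,
      (∀ B ∈ P.parts, B.card = 1 ∨
        ∃ S : Finset (Fin n), S.card = p ∧ B = S.powersetCard r) ∧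
      P.parts.card + F.card * p.choose r = H.card + F.card := by
  classical
  induction F using Finset.induction_on generalizing H with
  | empty =>
    refine ⟨⊥, fun B hB => ?_, by rw [Finpartition.card_bot]; simp⟩
    obtain ⟨a, _, ha⟩ := Finpartition.mem_bot_iff.1 hB
    left
    rw [← ha, Finset.card_singleton]
  | insert S F hS ih =>
    have hSp : S.card = p := hF S (mem_insert_self S F)
    have hSH : S.powersetCard r ⊆ H := hFH S (mem_insert_self S F)
    have hsub : ∀ T ∈ F, T.powersetCard r ⊆ H \ S.powersetCard r := by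
      intro T hT e he
      rw [mem_sdiff]
      refine ⟨hFH T (mem_insert_of_mem hT) he, fun he' => ?_⟩
      have hne : S ≠ T := fun h => hS (h ▸ hT)
      have h1 := hd S (mem_insert_self S F) T (mem_insert_of_mem hT) hne
      rw [mem_powersetCard] at he he'
      have h2 : e ⊆ S ∩ T := subset_inter he'.1 he.1
      have h3 := card_le_card h2
      omega
    obtain ⟨Q, hQ1, hQ2⟩ := ih (fun T hT => hF T (mem_insert_of_mem hT))
      (fun T hT U hU h => hd T (mem_insert_of_mem hT) U (mem_insert_of_mem hU) h)
      (H \ S.powersetCard r) hsub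
    have hne : S.powersetCard r ≠ ⊥ := by
      rw [Finset.bot_eq_empty, ← Finset.nonempty_iff_ne_empty]
      exact Finset.powersetCard_nonempty.2 (by omega)
    refine ⟨Q.extend hne sdiff_disjoint (Finset.sdiff_union_of_subset hSH), fun B hB => ?_, ?_⟩
    · rcases Finset.mem_insert.1 hB with h | h
      · exact Or.inr ⟨S, hSp, h⟩
      · exact hQ1 B h
    · rw [Finpartition.card_extend, Finset.card_insert_of_notMem hS]
      rw [Finset.card_sdiff_of_subset hSH, Finset.card_powersetCard, hSp] at hQ2
      have h1 := Finset.card_le_card hSH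
      rw [Finset.card_powersetCard, hSp] at h1
      rw [Nat.add_mul, one_mul]
      omega

end ESD
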