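import Mathlib

/-! # leaf: many `p`-sets, two of them with fewer than `r` common points

Points `(i, a)` with `i < p`, `a < q` (embedded in `Fin n` by `i * q + a`), one block
`{(i, f i) : i < p}` for each polynomial `f` of degree less than `r` over `ZMod q` (coefficient
vectors `Fin r → ZMod q`); the differences of two of the points `0, …, p - 1` are units. -/

set_option autoImplicit false

namespace ESD
open Finset

private theorem isUnit_sub {q p : ℕ} (hq : ∀ j, 0 < j → j < p → Nat.Coprime j q) (a b : ℕ)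
    (ha : a < p) (hb : b < p) (hab : a ≠ b) : IsUnit ((a : ZMod q) - (b : ZMod q)) := by
  rcases lt_or_gt_of_ne hab with h | h
  · have h1 : ((a : ZMod q) - (b : ZMod q)) = -((b - a : ℕ) : ZMod q) := by
      rw [Nat.cast_sub h.le]; ring
    rw [h1]
    exact ((ZMod.isUnit_iff_coprime (b - a) q).2 (hq _ (by omega) (by omega))).neg
  · have h1 : ((a : ZMod q) - (b : ZMod q)) = ((a - b : ℕ) : ZMod q) := by
      rw [Nat.cast_sub h.le]
    rw [h1]
    exact (ZMod.isUnit_iff_coprime (a - b) q).2 (hq _ (by omega) (by omega))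

private theorem vander {r q p : ℕ} (hq : ∀ j, 0 < j → j < p → Nat.Coprime j q)
    (t : Fin r → Fin p) (ht : Function.Injective t) (d : Fin r → ZMod q)
    (hd : ∀ j, ∑ k : Fin r, ((t j : ℕ) : ZMod q) ^ (k : ℕ) * d k = 0) : d = 0 := by
  classical
  have hu : IsUnit (Matrix.vandermonde fun j : Fin r => ((t j : ℕ) : ZMod q)).det := by
    rw [Matrix.det_vandermonde]
    refine Finset.prod_induction _ IsUnit (fun _ _ => IsUnit.mul) isUnit_one ?_
    intro i _
    refine Finset.prod_induction _ IsUnit (fun _ _ => IsUnit.mul) isUnit_one ?_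
    intro j hj
    refine isUnit_sub hq _ _ (t j).2 (t i).2 ?_
    intro h
    have h2 : t j = t i := Fin.ext h
    have h3 := ht h2
    rw [Finset.mem_Ioi] at hj
    exact absurd h3 (ne_of_gt hj)
  have h0 : (Matrix.vandermonde fun j : Fin r => ((t j : ℕ) : ZMod q)).mulVec d = 0 := by
    funext j
    simp only [Matrix.mulVec, dotProduct, Matrix.vandermonde_apply, Pi.zero_apply]
    exact hd j
  have h1 := Matrix.nonsing_inv_mul _ hu
  calc d = (1 : Matrix (Fin r) (Fin r) (ZMod q)).mulVec d := (Matrix.one_mulVec d).symm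
    _ = 0 := by rw [← h1, ← Matrix.mulVec_mulVec, h0, Matrix.mulVec_zero]

theorem pack (n r p q : ℕ) (hr : 1 ≤ r) (hrp : r ≤ p)
    (hq : ∀ j, 0 < j → j < p → Nat.Coprime j q) (hq0 : 0 < q) (hn : p * q ≤ n) :
    ∃ F : Finset (Finset (Fin n)), F.card = q ^ r ∧ (∀ S ∈ F, S.card = p) ∧
      ∀ S ∈ F, ∀ T ∈ F, S ≠ T → (S ∩ T).card < r := by
  classical
  have : NeZero q := ⟨hq0.ne'⟩
  let f : (Fin r → ZMod q) → Fin p → ZMod q := fun c i =>
    ∑ k : Fin r, ((i : ℕ) : ZMod q) ^ (k : ℕ) * c k
  have hlt : ∀ (i : Fin p) (a : ZMod q), (i : ℕ) * q + a.val < n := by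
    intro i a
    have h1 : a.val < q := ZMod.val_lt a
    have h2 : ((i : ℕ) + 1) * q ≤ p * q := Nat.mul_le_mul_right q i.2
    have h3 : ((i : ℕ) + 1) * q = (i : ℕ) * q + q := by ring
    omega
  let pt : (Fin r → ZMod q) → Fin p → Fin n := fun c i => ⟨(i : ℕ) * q + (f c i).val, hlt i (f c i)⟩
  have hpt : ∀ c c' i i', pt c i = pt c' i' → i = i' ∧ f c i = f c' i' := by
    intro c c' i i' h
    have h1 : (i : ℕ) * q + (f c i).val = (i' : ℕ) * q + (f c' i').val := congrArg Fin.val h
    have ha : (f c i).val < q := ZMod.val_lt _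
    have hb : (f c' i').val < q := ZMod.val_lt _
    have hi : (i : ℕ) = i' := by
      have e1 : ((i : ℕ) * q + (f c i).val) / q = i := by
        rw [Nat.add_comm, Nat.add_mul_div_right _ _ hq0, Nat.div_eq_of_lt ha, Nat.zero_add]
      have e2 : ((i' : ℕ) * q + (f c' i').val) / q = i' := by
        rw [Nat.add_comm, Nat.add_mul_div_right _ _ hq0, Nat.div_eq_of_lt hb, Nat.zero_add]
      rw [← e1, ← e2, h1]
    refine ⟨Fin.ext hi, ?_⟩
    rw [hi] at h1
    exact ZMod.val_injective q (by omega)
  let S : (Fin r → ZMod q) → Finset (Fin n) := fun c => univ.image (pt c)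
  have hScard : ∀ c, (S c).card = p := by
    intro c
    have : Function.Injective (pt c) := fun i i' h => (hpt c c i i' h).1
    show (univ.image (pt c)).card = p
    rw [card_image_of_injective _ this, card_univ, Fintype.card_fin]
  have hkey : ∀ c c', c ≠ c' → (S c ∩ S c').card < r := by
    intro c c' hne
    by_contra hcon
    push Not at hcon
    have hsub : S c ∩ S c' ⊆ (univ.filter fun i => f c i = f c' i).image (pt c) := by
      intro x hx
      rw [mem_inter] at hx
      obtain ⟨i, _, hi⟩ := mem_image.1 hx.1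
      obtain ⟨i', _, hi'⟩ := mem_image.1 hx.2
      have h := hpt c c' i i' (hi.trans hi'.symm)
      rw [mem_image]
      refine ⟨i, ?_, hi⟩
      rw [mem_filter]
      refine ⟨mem_univ _, ?_⟩
      rw [h.2, ← h.1]
    have hle : r ≤ (univ.filter fun i => f c i = f c' i).card :=
      le_trans hcon (le_trans (card_le_card hsub) card_image_le)
    obtain ⟨I, hI, hIc⟩ := exists_subset_card_eq hle
    let t : Fin r → Fin p := fun j => I.orderEmbOfFin hIc j
    have ht : Function.Injective t := (I.orderEmbOfFin hIc).injective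
    have hd : c - c' = 0 := by
      refine vander hq t ht _ ?_
      intro j
      have hj : t j ∈ I := orderEmbOfFin_mem I hIc j
      have hj2 := hI hj
      rw [mem_filter] at hj2
      have hj3 : ∑ k : Fin r, ((t j : ℕ) : ZMod q) ^ (k : ℕ) * c k =
          ∑ k : Fin r, ((t j : ℕ) : ZMod q) ^ (k : ℕ) * c' k := hj2.2
      simp only [Pi.sub_apply, mul_sub, sum_sub_distrib]
      rw [hj3, sub_self]
    exact hne (sub_eq_zero.1 hd)
  have hinj : Function.Injective S := by
    intro c c' h
    by_contra hne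
    have h1 := hkey c c' hne
    rw [← h, inter_self, hScard] at h1
    omega
  refine ⟨univ.image S, ?_, ?_, ?_⟩
  · rw [card_image_of_injective _ hinj, card_univ, Fintype.card_fun, ZMod.card, Fintype.card_fin]
  · intro T hT
    obtain ⟨c, _, rfl⟩ := mem_image.1 hT
    exact hScard c
  · intro A hA B hB hAB
    obtain ⟨c, _, rfl⟩ := mem_image.1 hA
    obtain ⟨c', _, rfl⟩ := mem_image.1 hB
    exact hkey c c' (fun h => hAB (by rw [h]))

end ESD
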