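import Mathlib

/-! # leaf: each missing edge kills at most one block -/

set_option autoImplicit false

namespace ESD
open Finset

theorem survive {n r p s : ℕ} (hrp : r ≤ p) (H : Finset (Finset (Fin n)))
    (hH : ∀ e ∈ H, e.card = r) (hs : n.choose r ≤ H.card + s)
    (F : Finset (Finset (Fin n))) (hF : ∀ S ∈ F, S.card = p)
    (hd : ∀ S ∈ F, ∀ T ∈ F, S ≠ T → (S ∩ T).card < r) :
    ∃ F' : Finset (Finset (Fin n)), F' ⊆ F ∧ (∀ S ∈ F', S.powersetCard r ⊆ H) ∧
      F.card ≤ F'.card + s := by
  classical
  refine ⟨F.filter fun S => S.powersetCard r ⊆ H, filter_subset _ _, fun S hS => (mem_filter.mp hS).2, ?_⟩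
  have h1 := card_filter_add_card_filter_not (s := F) (fun S => S.powersetCard r ⊆ H)
  have hex : ∀ S : Finset (Fin n), ∃ e : Finset (Fin n), ¬ S.powersetCard r ⊆ H → e ∈ S.powersetCard r ∧ e ∉ H := by
    intro S
    by_cases h : S.powersetCard r ⊆ H
    · exact ⟨∅, fun h' => absurd h h'⟩
    · obtain ⟨e, he1, he2⟩ := not_subset.mp h
      exact ⟨e, fun _ => ⟨he1, he2⟩⟩
  choose e he using hex
  have h2 : #(F.filter fun S => ¬ S.powersetCard r ⊆ H) ≤ #((univ : Finset (Fin n)).powersetCard r \ H) := by
    refine card_le_card_of_injOn e ?_ ?_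
    · intro S hS
      have hS' := (mem_filter.mp (mem_coe.mp hS))
      have h3 := he S hS'.2
      rw [mem_coe, mem_sdiff]
      exact ⟨powersetCard_mono (subset_univ S) h3.1, h3.2⟩
    · intro S hS T hT hST
      have hS' := (mem_filter.mp (mem_coe.mp hS))
      have hT' := (mem_filter.mp (mem_coe.mp hT))
      by_contra hne
      have h3 := (mem_powersetCard.mp (he S hS'.2).1)
      have h4 := (mem_powersetCard.mp (he T hT'.2).1)
      have h5 := hd S hS'.1 T hT'.1 hne
      have h6 : e S ⊆ S ∩ T := subset_inter h3.1 (by rw [hST]; exact h4.1)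
      have h7 := card_le_card h6
      omega
  have h3 : H ⊆ (univ : Finset (Fin n)).powersetCard r := by
    intro x hx
    rw [mem_powersetCard]
    exact ⟨subset_univ _, hH x hx⟩
  have h4 := card_sdiff_add_card_eq_card h3
  rw [card_powersetCard, card_univ, Fintype.card_fin] at h4
  omega

end ESD
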