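import Pool.Agent.Lib.MP_1f562fW.Free
import Pool.Agent.Lib.MP_1f562fD.Pack
import Pool.Agent.Lib.MP_1f562fD.Survive
import Pool.Agent.Lib.MP_1f562fD.Many
import Pool.Agent.Lib.MP_1f562fD.Asym

/-! # MP_1f562f_co: the Erdős–Sauer bound for dense `r`-graphs (helper96) -/

set_option autoImplicit false

namespace ESD
open Finset

/-- `H` has a partition into single edges and full edge sets of copies of `K_p^r` whose number of
parts is at most the number of edges of some `K_p^r`-free `r`-graph on the same vertices. -/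
def Bound (n r p : ℕ) (H : Finset (Finset (Fin n))) : Prop :=
  ∃ P : Finpartition H,
    (∀ B ∈ P.parts, B.card = 1 ∨
      ∃ S : Finset (Fin n), S.card = p ∧ B = S.powersetCard r) ∧
    ∃ G : Finset (Finset (Fin n)),
      (∀ e ∈ G, e.card = r) ∧
      (∀ S : Finset (Fin n), S.card = p → ¬ S.powersetCard r ⊆ G) ∧
      P.parts.card ≤ G.card

theorem explicit (n r p m q s : ℕ) (hr : 2 ≤ r) (hrp : r < p) (hm : 1 ≤ m)
    (hmp : m * (r - 1) < p) (hq0 : 0 < q) (hq : ∀ j, 0 < j → j < p → Nat.Coprime j q)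
    (hn : p * q ≤ n)
    (hc : s * (p.choose r - 2) + m * ((n + m - 1) / m).choose r ≤ q ^ r * (p.choose r - 1))
    (H : Finset (Finset (Fin n))) (hH : ∀ e ∈ H, e.card = r) (hs : n.choose r ≤ H.card + s) :
    Bound n r p H := by
  classical
  obtain ⟨D, hD⟩ : ∃ D, p.choose r = D + 2 := by
    have h1 : (r + 1).choose r ≤ p.choose r := Nat.choose_le_choose r hrp
    rw [Nat.choose_succ_self_right] at h1
    exact ⟨p.choose r - 2, by omega⟩
  have hHN : H.card ≤ n.choose r := by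
    have h1 : H ⊆ (univ : Finset (Fin n)).powersetCard r := by
      intro e he
      rw [mem_powersetCard]
      exact ⟨subset_univ _, hH e he⟩
    have h2 := card_le_card h1
    rw [card_powersetCard, card_univ, Fintype.card_fin] at h2
    exact h2
  obtain ⟨mu, hmu⟩ : ∃ mu, n.choose r = H.card + mu := ⟨n.choose r - H.card, by omega⟩
  obtain ⟨F, hFc, hFp, hFd⟩ := pack n r p q (by omega) hrp.le hq hq0 hn
  obtain ⟨F', hF'F, hF'H, hF'c⟩ := survive hrp.le H hH (le_of_eq hmu) F hFp hFd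
  obtain ⟨P, hP1, hP2⟩ := part_many (by omega) hrp.le F' (fun S hS => hFp S (hF'F hS))
    (fun S hS T hT => hFd S (hF'F hS) T (hF'F hT)) H hF'H
  obtain ⟨G, hG1, hG2, hG3⟩ := ESW.exists_free n r p m hr hm hmp
  refine ⟨P, hP1, G, hG1, hG2, ?_⟩
  rw [hD] at hc hP2
  have e1 : D + 2 - 2 = D := by omega
  have e2 : D + 2 - 1 = D + 1 := by omega
  rw [e1, e2] at hc
  have h1 : mu * D ≤ s * D := Nat.mul_le_mul_right _ (by omega)
  have h2 : F.card * (D + 1) ≤ (F'.card + mu) * (D + 1) := Nat.mul_le_mul_right _ hF'c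
  rw [hFc] at h2
  have h3 : (F'.card + mu) * (D + 1) = F'.card * (D + 1) + mu * D + mu := by ring
  have h4 : F'.card * (D + 2) = F'.card * (D + 1) + F'.card := by ring
  rw [h3] at h2
  rw [h4] at hP2
  generalize m * ((n + m - 1) / m).choose r = M at hc hG3
  generalize q ^ r * (D + 1) = Q at hc h2
  generalize F'.card * (D + 1) = A at h2 hP2
  generalize mu * D = B at h1 h2
  generalize s * D = E at h1 hc
  omega

theorem dense (r p : ℕ) (hr : 3 ≤ r) (hp : 2 * r - 1 ≤ p) :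
    ∃ δ : ℝ, 0 < δ ∧ ∃ n₀ : ℕ, ∀ n : ℕ, n₀ ≤ n → ∀ H : Finset (Finset (Fin n)),
      (∀ e ∈ H, e.card = r) → (1 - δ) * (n.choose r : ℝ) ≤ (H.card : ℝ) → Bound n r p H := by
  obtain ⟨δ, hδ, n₀, h⟩ := asym r p hr hp
  refine ⟨δ, hδ, n₀, fun n hn H hH hc => ?_⟩
  obtain ⟨q, s, hq0, hq, hpq, hs, hineq⟩ := h n hn
  refine explicit n r p 2 q s (by omega) (by omega) (by norm_num) (by omega) hq0 hq hpq hineq H hH ?_
  have h1 : ((n.choose r : ℕ) : ℝ) < ((H.card + s + 1 : ℕ) : ℝ) := by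
    push_cast
    linarith
  have h2 := Nat.cast_lt.1 h1
  omega

end ESD
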